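import Mathlib
import Pool.Agent.Q15.IZDefs
import Pool.Agent.Q15.IZEmb
import Pool.Agent.Q15.LatTerm
import Pool.Agent.Q15.Whitman

namespace Pool.Agent.Results.MP_79490a_al.NoLatticeIdentity

open Q15IZ Q15Lat

/-- Every lattice identity that holds in the lattice of varieties of implication zroupoids
holds in all lattices. -/
theorem result (p q : LTerm) (h : Holds Variety p q) (L : Type*) [Lattice L] :
    Holds L p q := by
  have h1 : ∀ m : ℕ, Holds (Setoid (Fin m)) p.dual q.dual := by
    intro m
    have h2 : Holds (Setoid (Fin m))ᵒᵈ p q := by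
      refine h.of_embedding (fun θ => X (OrderDual.ofDual θ)) ?_ ?_ ?_
      · intro a b hab
        exact X_injective hab
      · intro a b
        exact X_inf _ _
      · intro a b
        exact X_sup _ _
    exact h2.dual.of_embedding (fun θ => OrderDual.toDual (OrderDual.toDual θ))
      (fun a b hab => hab) (fun _ _ => rfl) (fun _ _ => rfl)
  have h3 := sachs _ _ h1 Lᵒᵈ
  have h4 := h3.dual
  rw [dual_dual, dual_dual] at h4
  exact h4.of_embedding (fun θ => OrderDual.toDual (OrderDual.toDual θ))
    (fun a b hab => hab) (fun _ _ => rfl) (fun _ _ => rfl)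

end Pool.Agent.Results.MP_79490a_al.NoLatticeIdentity
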